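import Mathlib

namespace Pool.Agent.Results.MP_0cafb6_an.ExplicitImmersion

open Matrix

/-- An entire function `G` with `z ^ 2 * G' z = exp z - 1 - z`. -/
theorem exists_G : ∃ G G' : ℂ → ℂ, (∀ z, HasDerivAt G (G' z) z) ∧
    ∀ z, z ^ 2 * G' z = Complex.exp z - 1 - z := by
  set g1 : ℂ → ℂ := dslope Complex.exp 0 with hg1
  set g2 : ℂ → ℂ := dslope g1 0 with hg2
  have h1 : Differentiable ℂ g1 := by
    rw [← differentiableOn_univ]
    exact (Complex.differentiableOn_dslope Filter.univ_mem).2
      Complex.differentiable_exp.differentiableOn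
  have h2 : Differentiable ℂ g2 := by
    rw [← differentiableOn_univ]
    exact (Complex.differentiableOn_dslope Filter.univ_mem).2 h1.differentiableOn
  obtain ⟨G, hG⟩ := h2.isExactOn_univ
  refine ⟨G, g2, fun z => hG z (Set.mem_univ z), fun z => ?_⟩
  have e1 : g1 0 = 1 := by
    rw [hg1, dslope_same]
    simp
  by_cases hz : z = 0
  · subst hz
    simp
  · rw [hg2, dslope_of_ne _ hz, slope_def_field, e1, hg1, dslope_of_ne _ hz, slope_def_field,
      Complex.exp_zero]
    field_simp
    ring

/-- The determinant is an entire function of the matrix entries. -/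
theorem differentiable_det (n : ℕ) :
    Differentiable ℂ (fun M : Fin n → Fin n → ℂ => (Matrix.of M).det) := by
  simp only [Matrix.det_apply, Matrix.of_apply]
  fun_prop

/-- The cofactor of the `(0,0)` entry: determinant with row `0` replaced by `e_0`. -/
theorem differentiable_cof (m : ℕ) :
    Differentiable ℂ (fun M : Fin (m + 2) → Fin (m + 2) → ℂ =>
      (Matrix.of (Function.update M 0 (Pi.single 0 1))).det) := by
  have h : Differentiable ℂ (fun M : Fin (m + 2) → Fin (m + 2) → ℂ =>
      Function.update M 0 (Pi.single 0 1)) := by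
    rw [differentiable_pi]
    intro i
    by_cases hi : i = 0
    · subst hi
      simp
    · simp only [Function.update_of_ne hi]
      fun_prop
  exact (differentiable_det (m + 2)).comp h

theorem result (n : ℕ) (hn : 2 ≤ n) :
    ∃ f : (Fin n → Fin n → ℂ) → (Fin (n ^ 2 - 1) → ℂ), Differentiable ℂ f ∧
      ∀ A : Fin n → Fin n → ℂ, (Matrix.of A).det = 1 →
        ∀ B : Fin n → Fin n → ℂ,
          fderiv ℂ (fun M : Fin n → Fin n → ℂ => (Matrix.of M).det) A B = 0 →
          fderiv ℂ f A B = 0 → B = 0 := by
  obtain ⟨m, rfl⟩ : ∃ m, n = m + 2 := ⟨n - 2, by omega⟩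
  obtain ⟨G, G', hG, hGG⟩ := exists_G
  -- the cofactor function and the exponent
  set cof : (Fin (m + 2) → Fin (m + 2) → ℂ) → ℂ := fun M =>
    (Matrix.of (Function.update M 0 (Pi.single 0 1))).det with hcof
  have hcofd : Differentiable ℂ cof := differentiable_cof m
  set u : (Fin (m + 2) → Fin (m + 2) → ℂ) → ℂ := fun M => - M 0 0 + G (cof M) with hu
  have hGd : Differentiable ℂ G := fun z => (hG z).differentiableAt
  have hud : Differentiable ℂ u := by
    have : Differentiable ℂ (fun M : Fin (m + 2) → Fin (m + 2) → ℂ => G (cof M)) :=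
      hGd.comp hcofd
    exact (by fun_prop : Differentiable ℂ (fun M : Fin (m + 2) → Fin (m + 2) → ℂ => - M 0 0)).add
      this
  let P : Type := {p : Fin (m + 2) × Fin (m + 2) // p ≠ (0, 0)}
  have hcard : Fintype.card P = (m + 2) ^ 2 - 1 := by
    simp only [P, Fintype.card_subtype_compl, Fintype.card_prod, Fintype.card_fin,
      Fintype.card_subtype_eq, ne_eq]
    ring_nf
  let e : Fin ((m + 2) ^ 2 - 1) ≃ P := (Fintype.equivFinOfCardEq hcard).symm
  let F : P → (Fin (m + 2) → Fin (m + 2) → ℂ) → ℂ := fun p M =>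
    if p.1.1 = 1 then M p.1.1 p.1.2 * Complex.exp (u M) else M p.1.1 p.1.2
  have hFd : ∀ p, Differentiable ℂ (F p) := by
    intro p
    by_cases hp : p.1.1 = 1
    · simp only [F, if_pos hp]
      exact (by fun_prop : Differentiable ℂ
        (fun M : Fin (m + 2) → Fin (m + 2) → ℂ => M p.1.1 p.1.2)).mul hud.cexp
    · simp only [F, if_neg hp]
      fun_prop
  refine ⟨fun M i => F (e i) M, ?_, ?_⟩
  · rw [differentiable_pi]
    exact fun i => hFd (e i)
  intro A hA B hdet hf
  -- all components of the differential vanish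
  have hFB : ∀ p, fderiv ℂ (F p) A B = 0 := by
    intro p
    have h1 : HasFDerivAt (fun M (i : Fin ((m + 2) ^ 2 - 1)) => F (e i) M)
        (ContinuousLinearMap.pi fun i => fderiv ℂ (F (e i)) A) A :=
      hasFDerivAt_pi.2 fun i => (hFd (e i) A).hasFDerivAt
    rw [h1.fderiv] at hf
    have := congrFun hf (e.symm p)
    simpa using this
  have hcoord : ∀ i j, HasFDerivAt (fun M : Fin (m + 2) → Fin (m + 2) → ℂ => M i j)
      ((ContinuousLinearMap.proj j : (Fin (m + 2) → ℂ) →L[ℂ] ℂ).comp
        (ContinuousLinearMap.proj i : (Fin (m + 2) → Fin (m + 2) → ℂ) →L[ℂ] (Fin (m + 2) → ℂ)))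
      A := by
    intro i j
    exact ((ContinuousLinearMap.proj j : (Fin (m + 2) → ℂ) →L[ℂ] ℂ).comp
        (ContinuousLinearMap.proj i : (Fin (m + 2) → Fin (m + 2) → ℂ) →L[ℂ]
          (Fin (m + 2) → ℂ))).hasFDerivAt
  have h01 : (0 : Fin (m + 2)) ≠ 1 := by simp
  have hrow0 : ∀ i j, i ≠ 1 → (i, j) ≠ ((0, 0) : Fin (m + 2) × Fin (m + 2)) → B i j = 0 := by
    intro i j hi hij
    have h := hFB ⟨(i, j), hij⟩
    have hF : F ⟨(i, j), hij⟩ = fun M => M i j := by
      funext M
      simp only [F, if_neg hi]
    rw [hF, (hcoord i j).fderiv] at h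
    simpa using h
  -- the directional derivative of `u`
  set k : ℂ := fderiv ℂ u A B with hk
  have hrow1 : ∀ j, B 1 j = - k * A 1 j := by
    intro j
    have hij : ((1, j) : Fin (m + 2) × Fin (m + 2)) ≠ (0, 0) := by
      intro h
      exact h01 (Prod.ext_iff.1 h).1.symm
    have h := hFB ⟨(1, j), hij⟩
    have hF : F ⟨(1, j), hij⟩ = fun M => M 1 j * Complex.exp (u M) := by
      funext M
      simp only [F, if_true]
    have hd : HasFDerivAt (fun M : Fin (m + 2) → Fin (m + 2) → ℂ => M 1 j * Complex.exp (u M))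
        (A 1 j • (Complex.exp (u A) • fderiv ℂ u A) + Complex.exp (u A) •
        ((ContinuousLinearMap.proj j : (Fin (m + 2) → ℂ) →L[ℂ] ℂ).comp
        (ContinuousLinearMap.proj 1 : (Fin (m + 2) → Fin (m + 2) → ℂ) →L[ℂ]
          (Fin (m + 2) → ℂ)))) A :=
      (hcoord 1 j).mul (hud A).hasFDerivAt.cexp
    rw [hF, hd.fderiv] at h
    simp only [_root_.add_apply, _root_.smul_apply, smul_eq_mul,
      ContinuousLinearMap.comp_apply, ContinuousLinearMap.proj_apply] at h
    rw [← hk] at h
    have hne := Complex.exp_ne_zero (u A)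
    have h' : Complex.exp (u A) * (B 1 j + k * A 1 j) = 0 := by
      linear_combination h
    have := (mul_eq_zero.1 h').resolve_left hne
    linear_combination this
  -- the determinant and the cofactor on the line `A + t B`
  set b : ℂ := B 0 0 with hb
  have hBform : ∀ t : ℂ, A + t • B =
      Function.update (Function.update A 0 (A 0 + (t * b) • Pi.single 0 1)) 1
        ((1 - t * k) • A 1) := by
    intro t
    funext i j
    by_cases hi1 : i = 1
    · subst hi1
      simp only [Function.update_self, Pi.add_apply, Pi.smul_apply, smul_eq_mul, hrow1 j]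
      ring
    · rw [Function.update_of_ne hi1]
      by_cases hi0 : i = 0
      · subst hi0
        rw [Function.update_self]
        by_cases hj : j = 0
        · subst hj
          simp [← hb]
        · simp [hj, hrow0 0 j hi1 (by simp [hj])]
      · rw [Function.update_of_ne hi0]
        simp [hrow0 i j hi1 (by simp [hi0])]
  have hdetline : ∀ t : ℂ, (Matrix.of (A + t • B)).det =
      (1 - t * k) * ((Matrix.of A).det + t * b * cof A) := by
    intro t
    rw [hBform t]
    have h1 : Matrix.of (Function.update (Function.update A 0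
        (A 0 + (t * b) • Pi.single 0 1)) 1 ((1 - t * k) • A 1)) =
        Matrix.updateRow (Matrix.updateRow (Matrix.of A) 0
          ((Matrix.of A) 0 + (t * b) • Pi.single 0 1)) 1 ((1 - t * k) • A 1) := rfl
    rw [h1, Matrix.det_updateRow_smul]
    congr 1
    have h2 : Matrix.updateRow (Matrix.updateRow (Matrix.of A) 0
          ((Matrix.of A) 0 + (t * b) • Pi.single 0 1)) 1 (A 1) =
        Matrix.updateRow (Matrix.of A) 0 ((Matrix.of A) 0 + (t * b) • Pi.single 0 1) := by
      rw [Matrix.updateRow_comm _ h01]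
      congr 1
      exact Matrix.updateRow_eq_self _ _
    rw [h2, Matrix.det_updateRow_add, Matrix.updateRow_eq_self, Matrix.det_updateRow_smul]
    rfl
  have hcofline : ∀ t : ℂ, cof (A + t • B) = (1 - t * k) * cof A := by
    intro t
    simp only [hcof]
    rw [hBform t]
    have h1 : Matrix.of (Function.update (Function.update (Function.update A 0
        (A 0 + (t * b) • Pi.single 0 1)) 1 ((1 - t * k) • A 1)) 0 (Pi.single 0 1)) =
        Matrix.updateRow (Matrix.updateRow (Matrix.updateRow (Matrix.of A) 0
          (A 0 + (t * b) • Pi.single 0 1)) 1 ((1 - t * k) • A 1)) 0 (Pi.single 0 1) := rfl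
    rw [h1, Matrix.updateRow_comm _ h01.symm, Matrix.updateRow_idem, Matrix.det_updateRow_smul]
    congr 1
    rw [Matrix.updateRow_comm _ h01]
    have h2 : Matrix.updateRow (Matrix.of A) 1 (A 1) = Matrix.of A :=
      Matrix.updateRow_eq_self _ _
    rw [h2]
    rfl
  -- derivatives along the line
  have hline : HasDerivAt (fun t : ℂ => A + t • B) B 0 := by
    have := ((hasDerivAt_id (0 : ℂ)).smul_const B).const_add A
    simpa using this
  have hA0 : A + (0 : ℂ) • B = A := by simp
  have hderdet : fderiv ℂ (fun M : Fin (m + 2) → Fin (m + 2) → ℂ => (Matrix.of M).det) A B =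
      b * cof A - k := by
    have h1 : HasFDerivAt (fun M : Fin (m + 2) → Fin (m + 2) → ℂ => (Matrix.of M).det)
        (fderiv ℂ (fun M : Fin (m + 2) → Fin (m + 2) → ℂ => (Matrix.of M).det) A)
        (A + (0 : ℂ) • B) := by
      rw [hA0]
      exact (differentiable_det (m + 2) A).hasFDerivAt
    have h2 := h1.comp_hasDerivAt (0 : ℂ) hline
    have h3 : HasDerivAt (fun t : ℂ => (1 - t * k) * ((Matrix.of A).det + t * b * cof A))
        (b * cof A - k) 0 := by
      have h4 : HasDerivAt (fun t : ℂ => 1 - t * k) (-k) 0 := by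
        simpa using ((hasDerivAt_id (0 : ℂ)).mul_const k).const_sub 1
      have h5 : HasDerivAt (fun t : ℂ => (Matrix.of A).det + t * b * cof A) (b * cof A) 0 := by
        simpa using (((hasDerivAt_id (0 : ℂ)).mul_const b).mul_const (cof A)).const_add
          (Matrix.of A).det
      have h6 : HasDerivAt (fun t : ℂ => (1 - t * k) * ((Matrix.of A).det + t * b * cof A))
          (-k * ((Matrix.of A).det + 0 * b * cof A) + (1 - 0 * k) * (b * cof A)) 0 := h4.mul h5
      have h8 : -k * ((Matrix.of A).det + 0 * b * cof A) + (1 - 0 * k) * (b * cof A) =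
          b * cof A - k := by
        rw [hA]
        ring
      rwa [h8] at h6
    have h7 : (fun M : Fin (m + 2) → Fin (m + 2) → ℂ => (Matrix.of M).det) ∘
        (fun t : ℂ => A + t • B) =
        (fun t : ℂ => (1 - t * k) * ((Matrix.of A).det + t * b * cof A)) := by
      funext t
      exact hdetline t
    rw [h7] at h2
    exact h2.unique h3
  have hdercof : fderiv ℂ cof A B = - k * cof A := by
    have h1 : HasFDerivAt cof (fderiv ℂ cof A) (A + (0 : ℂ) • B) := by
      rw [hA0]
      exact (hcofd A).hasFDerivAt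
    have h2 := h1.comp_hasDerivAt (0 : ℂ) hline
    have h3 : HasDerivAt (fun t : ℂ => (1 - t * k) * cof A) (- k * cof A) 0 := by
      simpa using (((hasDerivAt_id (0 : ℂ)).mul_const k).const_sub 1).mul_const (cof A)
    have h7 : cof ∘ (fun t : ℂ => A + t • B) = (fun t : ℂ => (1 - t * k) * cof A) := by
      funext t
      exact hcofline t
    rw [h7] at h2
    exact h2.unique h3
  have hku : k = - b + G' (cof A) * (- k * cof A) := by
    have h1 : HasFDerivAt u (-((ContinuousLinearMap.proj 0 : (Fin (m + 2) → ℂ) →L[ℂ] ℂ).comp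
        (ContinuousLinearMap.proj 0 : (Fin (m + 2) → Fin (m + 2) → ℂ) →L[ℂ] (Fin (m + 2) → ℂ)))
        + (G' (cof A)) • fderiv ℂ cof A) A := by
      refine (hcoord 0 0).neg.add ?_
      exact (hG (cof A)).comp_hasFDerivAt A (hcofd A).hasFDerivAt
    have h2 : fderiv ℂ u A B = - b + G' (cof A) * (- k * cof A) := by
      rw [h1.fderiv]
      simp only [_root_.add_apply, _root_.neg_apply,
        _root_.smul_apply, smul_eq_mul, ContinuousLinearMap.comp_apply,
        ContinuousLinearMap.proj_apply, hdercof]
      rfl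
    rw [← hk] at h2
    exact h2
  rw [hdet] at hderdet
  have hkb : k = b * cof A := by linear_combination hderdet
  have hfin : b * Complex.exp (cof A) = 0 := by
    have h := hGG (cof A)
    have : b * (1 + cof A + (cof A) ^ 2 * G' (cof A)) = 0 := by
      linear_combination hkb * (-1 - G' (cof A) * cof A) + hku
    rw [h] at this
    linear_combination this
  have hb0 : b = 0 := (mul_eq_zero.1 hfin).resolve_right (Complex.exp_ne_zero _)
  have hk0 : k = 0 := by rw [hkb, hb0, zero_mul]
  funext i j
  by_cases hi1 : i = 1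
  · subst hi1
    rw [hrow1 j, hk0]
    simp
  · by_cases hij : (i, j) = ((0, 0) : Fin (m + 2) × Fin (m + 2))
    · obtain ⟨rfl, rfl⟩ := Prod.ext_iff.1 hij
      exact hb0
    · exact hrow0 i j hi1 hij

end Pool.Agent.Results.MP_0cafb6_an.ExplicitImmersion
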